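import Mathlib

/-!
# Adeles without the components in `S`
-/

set_option autoImplicit false

open IsDedekindDomain NumberField
open scoped RestrictedProduct

namespace Pool.Agent.Lib.MP_78b700_nt

/-- The ring `A_F^S` of adeles of the number field `F` without the archimedean components and
without the components at the primes in `S`: the restricted product of the completions `F_v`
with respect to their valuation rings, over the primes `v` not in `S`. -/
abbrev SAdele (F : Type*) [Field F] [NumberField F] (S : Finset (HeightOneSpectrum (𝓞 F))) :
    Type _ :=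
  Πʳ v : {v : HeightOneSpectrum (𝓞 F) // v ∉ S},
    [v.1.adicCompletion F, v.1.adicCompletionIntegers F]

/-- The diagonal embedding of `F` in `A_F^S`. -/
noncomputable def diag (F : Type*) [Field F] [NumberField F]
    (S : Finset (HeightOneSpectrum (𝓞 F))) : F →+* SAdele F S where
  toFun x := ⟨fun v => (x : v.1.adicCompletion F), by
    have h := HeightOneSpectrum.Support.finite (𝓞 F) x
    have h2 : {v : {v : HeightOneSpectrum (𝓞 F) // v ∉ S} |
        ¬ ((x : v.1.adicCompletion F) ∈ v.1.adicCompletionIntegers F)}.Finite := by
      refine (h.preimage (Subtype.val_injective.injOn)).subset ?_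
      intro v hv
      simpa [HeightOneSpectrum.mem_adicCompletionIntegers,
        HeightOneSpectrum.valuedAdicCompletion_eq_valuation', HeightOneSpectrum.Support] using hv
    exact h2⟩
  map_one' := Subtype.ext <| funext fun _ ↦ HeightOneSpectrum.adicCompletion.coe_one ..
  map_mul' x y := Subtype.ext <| funext fun _ ↦ HeightOneSpectrum.adicCompletion.coe_mul ..
  map_zero' := Subtype.ext <| funext fun _ ↦ HeightOneSpectrum.adicCompletion.coe_zero ..
  map_add' x y := Subtype.ext <| funext fun _ ↦ HeightOneSpectrum.adicCompletion.coe_add ..

/-- The split torus `T = G_m^ι` over a ring `R`: its group of `R`-points. -/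
abbrev Torus (ι : Type*) (R : Type*) [CommRing R] : Type _ := ι → Rˣ

/-- The diagonal map `T(F) → T(A_F^S)`. -/
noncomputable def torusDiag (F : Type*) [Field F] [NumberField F]
    (S : Finset (HeightOneSpectrum (𝓞 F))) (ι : Type*) (p : Torus ι F) : Torus ι (SAdele F S) :=
  fun i => Units.map (diag F S : F →* SAdele F S) (p i)

/-- The `R`-points of `X = P^1 minus {∞} ∪ {a i}` inside the torus `G_m^ι`, through
`x ↦ (x - a i)_i`; here `f : F → R` is the structure map of `R`. -/
def curvePoints {F : Type*} [Field F] {ι : Type*} (a : ι → F) {R : Type*} [CommRing R]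
    (f : F →+* R) : Set (Torus ι R) :=
  {p | ∃ x : R, ∀ i, (p i : R) = x - f (a i)}

end Pool.Agent.Lib.MP_78b700_nt
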