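import Pool.Agent.Lib.MP_78b700_nt.Places

/-!
# The rank one argument: an approximate unit equation is exact
-/

set_option autoImplicit false

open IsDedekindDomain NumberField NumberField.HeightOneSpectrum Filter Topology

namespace Pool.Agent.Lib.MP_78b700_nt

variable {F : Type*} [Field F] [NumberField F]

/-- `u` is an `S`-unit. -/
def IsSUnit (S : Finset (HeightOneSpectrum (𝓞 F))) (u : F) : Prop :=
  u ≠ 0 ∧ ∀ v ∉ S, fabs v u = 1

variable {S : Finset (HeightOneSpectrum (𝓞 F))}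

lemma IsSUnit.mul {u w : F} (hu : IsSUnit S u) (hw : IsSUnit S w) : IsSUnit S (u * w) :=
  ⟨mul_ne_zero hu.1 hw.1, fun v hv => by rw [map_mul, hu.2 v hv, hw.2 v hv, one_mul]⟩

lemma IsSUnit.zpow {u : F} (hu : IsSUnit S u) (n : ℤ) : IsSUnit S (u ^ n) :=
  ⟨zpow_ne_zero n hu.1, fun v hv => by rw [map_zpow₀, hu.2 v hv, one_zpow]⟩

lemma finite_or_exists (S : Finset (HeightOneSpectrum (𝓞 F))) :
    {u : F | IsSUnit S u}.Finite ∨ ∃ ε, IsSUnit S ε ∧ ∃ t, 1 < tabs S t ε := by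
  by_cases h : ∃ ε, IsSUnit S ε ∧ ∃ t, 1 < tabs S t ε
  · exact Or.inr h
  · left
    push Not at h
    exact (finite_bounded S 1).subset fun u hu => ⟨fun v hv => (hu.2 v hv).le, h u hu⟩

lemma two_places (hS : Fintype.card (TPlace S) ≤ 2) {ε : F} (hε : IsSUnit S ε) {t₁ : TPlace S}
    (h1 : 1 < tabs S t₁ ε) :
    ∃ t₂, tabs S t₂ ε < 1 ∧ t₁ ≠ t₂ ∧ ∀ t, t = t₁ ∨ t = t₂ := by
  classical
  have hp := tprod_eq_one S hε.1 hε.2
  have h2 : ∃ t₂, tabs S t₂ ε < 1 := by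
    by_contra hcon
    push Not at hcon
    have : 1 < tprod S ε := by
      unfold tprod
      rw [← Finset.mul_prod_erase Finset.univ _ (Finset.mem_univ t₁)]
      have ha : 1 < tabs S t₁ ε ^ texp S t₁ := one_lt_pow₀ h1 (texp_pos S t₁).ne'
      have hb : 1 ≤ ∏ t ∈ Finset.univ.erase t₁, tabs S t ε ^ texp S t := by
        have := Finset.prod_le_prod (s := Finset.univ.erase t₁) (f := fun _ => (1 : ℝ))
          (g := fun t => tabs S t ε ^ texp S t) (fun _ _ => zero_le_one)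
          (fun t _ => one_le_pow₀ (hcon t))
        simpa using this
      nlinarith
    linarith
  obtain ⟨t₂, h2⟩ := h2
  have hne : t₁ ≠ t₂ := by rintro rfl; linarith
  refine ⟨t₂, h2, hne, fun t => ?_⟩
  by_contra hcon
  push Not at hcon
  have : 3 ≤ Fintype.card (TPlace S) := by
    rw [← Finset.card_univ]
    have hc : ({t₁, t₂, t} : Finset (TPlace S)).card = 3 := by
      rw [Finset.card_eq_three]
      exact ⟨t₁, t₂, t, hne, hcon.1.symm, hcon.2.symm, rfl⟩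
    rw [← hc]
    exact Finset.card_le_card (Finset.subset_univ _)
  omega

lemma tprod_two {t₁ t₂ : TPlace S} (hne : t₁ ≠ t₂) (hall : ∀ t, t = t₁ ∨ t = t₂) (x : F) :
    tprod S x = tabs S t₁ x ^ texp S t₁ * tabs S t₂ x ^ texp S t₂ := by
  classical
  unfold tprod
  have : (Finset.univ : Finset (TPlace S)) = {t₁, t₂} := by
    ext t; simpa using hall t
  rw [this, Finset.prod_pair hne]

lemma virt_cyclic {ε : F} (hε : IsSUnit S ε) {t₁ t₂ : TPlace S} (h1 : 1 < tabs S t₁ ε)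
    (hne : t₁ ≠ t₂) (hall : ∀ t, t = t₁ ∨ t = t₂) :
    ∃ Z : Set F, Z.Finite ∧ (∀ ζ ∈ Z, IsSUnit S ζ) ∧
      ∀ u, IsSUnit S u → ∃ ζ ∈ Z, ∃ n : ℤ, u = ζ * ε ^ n := by
  refine ⟨{ζ | IsSUnit S ζ ∧ ∀ t, tabs S t ζ ≤ tabs S t₁ ε},
    (finite_bounded S (tabs S t₁ ε)).subset fun ζ hζ => ⟨fun v hv => (hζ.1.2 v hv).le, hζ.2⟩,
    fun ζ hζ => hζ.1, fun u hu => ?_⟩
  obtain ⟨n, hn1, hn2⟩ := exists_mem_Ico_zpow ((tabs S t₁).pos hu.1) h1
  have hζ : IsSUnit S (u * ε ^ (-n)) := hu.mul (hε.zpow _)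
  have hE : 0 < tabs S t₁ ε := (tabs S t₁).pos hε.1
  refine ⟨u * ε ^ (-n), ⟨hζ, ?_⟩, n, ?_⟩
  · have a1 : 1 ≤ tabs S t₁ (u * ε ^ (-n)) := by
      rw [map_mul, map_zpow₀, zpow_neg, ← div_eq_mul_inv, one_le_div (zpow_pos hE _)]
      exact hn1
    have a2 : tabs S t₁ (u * ε ^ (-n)) ≤ tabs S t₁ ε := by
      rw [map_mul, map_zpow₀, zpow_neg, ← div_eq_mul_inv, div_le_iff₀ (zpow_pos hE _)]
      rw [zpow_add_one₀ hE.ne'] at hn2
      linarith
    have a3 : tabs S t₂ (u * ε ^ (-n)) ≤ 1 := by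
      have hp := tprod_eq_one S hζ.1 hζ.2
      rw [tprod_two hne hall] at hp
      by_contra hcon
      push Not at hcon
      have b1 : 1 ≤ tabs S t₁ (u * ε ^ (-n)) ^ texp S t₁ := one_le_pow₀ a1
      have b2 : 1 < tabs S t₂ (u * ε ^ (-n)) ^ texp S t₂ := one_lt_pow₀ hcon (texp_pos S t₂).ne'
      nlinarith
    intro t
    rcases hall t with rfl | rfl
    · exact a2
    · linarith
  · rw [mul_assoc, ← zpow_add₀ hε.1]; simp

lemma sol_bound_aux (e e' : ℕ) (he : 0 < e) (he' : 0 < e') (ca cb : ℝ)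
    (x y X Y : ℝ) (hx : 0 ≤ x) (hy : 0 ≤ y)
    (hX : x - 1 ≤ X) (hY : 1 - y ≤ Y) (h1 : x ^ e * y ^ e' = ca) (h2 : X ^ e * Y ^ e' = cb) :
    x ≤ max 2 (max (ca * 2 ^ e') (2 * cb * 2 ^ e')) := by
  by_contra hcon
  push Not at hcon
  have hx2 : 2 < x := (le_max_left _ _).trans_lt hcon
  have hxa : ca * 2 ^ e' < x := ((le_max_left _ _).trans (le_max_right _ _)).trans_lt hcon
  have hxb : 2 * cb * 2 ^ e' < x := ((le_max_right _ _).trans (le_max_right _ _)).trans_lt hcon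
  have hxe : x ≤ x ^ e := le_self_pow₀ (by linarith) he.ne'
  have hy2 : y ≤ 1 / 2 := by
    by_contra hyc
    push Not at hyc
    have : (1 / 2 : ℝ) ^ e' ≤ y ^ e' := pow_le_pow_left₀ (by norm_num) hyc.le _
    have h3 : x * (1 / 2 : ℝ) ^ e' ≤ ca := by
      rw [← h1]
      exact mul_le_mul hxe this (by positivity) (by positivity)
    have h4 : x ≤ ca * 2 ^ e' := by
      have h5 : (1 / 2 : ℝ) ^ e' * 2 ^ e' = 1 := by rw [← mul_pow]; norm_num
      calc x = x * ((1 / 2 : ℝ) ^ e' * 2 ^ e') := by rw [h5, mul_one]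
        _ = (x * (1 / 2 : ℝ) ^ e') * 2 ^ e' := by ring
        _ ≤ ca * 2 ^ e' := mul_le_mul_of_nonneg_right h3 (by positivity)
    linarith
  have hY2 : 1 / 2 ≤ Y := by linarith
  have hX1 : x / 2 ≤ X := by linarith
  have hX2 : X ≤ X ^ e := le_self_pow₀ (by linarith) he.ne'
  have h6 : (1 / 2 : ℝ) ^ e' ≤ Y ^ e' := pow_le_pow_left₀ (by norm_num) hY2 _
  have h7 : (x / 2) * (1 / 2 : ℝ) ^ e' ≤ cb := by
    rw [← h2]
    exact mul_le_mul (hX1.trans hX2) h6 (by positivity) (pow_nonneg (by linarith) _)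
  have h5 : (1 / 2 : ℝ) ^ e' * 2 ^ e' = 1 := by rw [← mul_pow]; norm_num
  have h8 : x ≤ 2 * cb * 2 ^ e' := by
    calc x = 2 * ((x / 2) * (1 / 2 : ℝ) ^ e') * 2 ^ e' := by
          rw [mul_assoc, mul_assoc, h5]; ring
      _ ≤ 2 * cb * 2 ^ e' := by
          have h9 : (0 : ℝ) ≤ 2 ^ e' := by positivity
          nlinarith
  linarith

lemma sol_finite {t₁ t₂ : TPlace S} (hne : t₁ ≠ t₂) (hall : ∀ t, t = t₁ ∨ t = t₂)
    {a₀ b₀ : F} (ha₀ : a₀ ≠ 0) (hb₀ : b₀ ≠ 0) :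
    {a : F | IsSUnit S (a / a₀) ∧ IsSUnit S ((1 - a) / b₀)}.Finite := by
  classical
  set ca := tprod S a₀
  set cb := tprod S b₀
  set B : ℝ := max (max 2 (max (ca * 2 ^ texp S t₂) (2 * cb * 2 ^ texp S t₂)))
    (max 2 (max (ca * 2 ^ texp S t₁) (2 * cb * 2 ^ texp S t₁))) with hB
  have hB0 : 0 ≤ B := by
    rw [hB]; exact le_max_of_le_left (le_max_of_le_left (by norm_num))
  set B' : ℝ := B * max (tabs S t₁ a₀⁻¹) (tabs S t₂ a₀⁻¹) with hB'
  refine ((finite_bounded S B').image (fun x => a₀ * x)).subset ?_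
  rintro a ⟨h1, h2⟩
  refine ⟨a / a₀, ⟨fun v hv => (h1.2 v hv).le, ?_⟩, by field_simp⟩
  have ea : tprod S a = ca := by
    have := tprod_eq_one S h1.1 h1.2
    rw [show a = a₀ * (a / a₀) by field_simp, tprod_mul, this, mul_one]
  have eb : tprod S (1 - a) = cb := by
    have := tprod_eq_one S h2.1 h2.2
    rw [show (1 - a) = b₀ * ((1 - a) / b₀) by field_simp, tprod_mul, this, mul_one]
  have k1 : ∀ t : TPlace S, tabs S t a - 1 ≤ tabs S t (1 - a) := by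
    intro t
    have := (tabs S t).sub_le a 0 1
    have h3 := (tabs S t).add_le (a - 1) 1
    rw [map_one] at h3
    have h4 : tabs S t (a - 1) = tabs S t (1 - a) := by rw [← map_neg_eq_map]; congr 1; ring
    rw [h4] at h3
    simp only [sub_add_cancel] at h3
    linarith
  have k2 : ∀ t : TPlace S, 1 - tabs S t a ≤ tabs S t (1 - a) := by
    intro t
    have h3 := (tabs S t).add_le (1 - a) a
    rw [sub_add_cancel, map_one] at h3
    linarith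
  have b1 : tabs S t₁ a ≤ B := by
    refine le_trans ?_ (le_max_left _ _)
    refine sol_bound_aux (texp S t₁) (texp S t₂) (texp_pos S _) (texp_pos S _) ca cb _
      (tabs S t₂ a) (tabs S t₁ (1 - a)) (tabs S t₂ (1 - a)) ((tabs S t₁).nonneg _)
      ((tabs S t₂).nonneg _) (k1 _) (k2 _) ?_ ?_
    · rw [← tprod_two hne hall, ea]
    · rw [← tprod_two hne hall, eb]
  have b2 : tabs S t₂ a ≤ B := by
    refine le_trans ?_ (le_max_right _ _)
    refine sol_bound_aux (texp S t₂) (texp S t₁) (texp_pos S _) (texp_pos S _) ca cb _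
      (tabs S t₁ a) (tabs S t₂ (1 - a)) (tabs S t₁ (1 - a)) ((tabs S t₂).nonneg _)
      ((tabs S t₁).nonneg _) (k1 _) (k2 _) ?_ ?_
    · rw [mul_comm, ← tprod_two hne hall, ea]
    · rw [mul_comm, ← tprod_two hne hall, eb]
  intro t
  rw [div_eq_mul_inv, map_mul]
  rcases hall t with rfl | rfl
  · exact mul_le_mul b1 (le_max_left _ _) ((tabs S _).nonneg _) hB0
  · exact mul_le_mul b2 (le_max_right _ _) ((tabs S _).nonneg _) hB0

/-- The product over `S ∪ ∞` of a quotient is small for large exponents. -/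
lemma eventually_small (E E₂ C₁ C₂ : ℝ) (hE : 1 < E) (h20 : 0 ≤ E₂) (h21 : E₂ < 1)
    (e₁ e₂ : ℕ) (he₁ : 0 < e₁) :
    ∀ᶠ r : ℕ in atTop, (C₁ * E ^ (2 * r) / (E ^ (3 * r) - 1)) ^ e₁ *
      (C₂ / (1 - E₂ ^ (3 * r))) ^ e₂ < 1 := by
  have t0 : Tendsto (fun r : ℕ => E⁻¹ ^ r) atTop (𝓝 0) :=
    tendsto_pow_atTop_nhds_zero_of_lt_one (by positivity) (inv_lt_one_of_one_lt₀ hE)
  have t1 : Tendsto (fun r : ℕ => C₁ * E ^ (2 * r) / (E ^ (3 * r) - 1)) atTop (𝓝 0) := by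
    have h1 : ∀ r : ℕ, C₁ * E ^ (2 * r) / (E ^ (3 * r) - 1) =
        C₁ * E⁻¹ ^ r / (1 - (E⁻¹ ^ r) ^ 3) := by
      intro r
      have hE0 : E ^ r ≠ 0 := by positivity
      have h2 : C₁ * E ^ (2 * r) / (E ^ (3 * r) - 1) =
        (C₁ * E ^ (2 * r)) * (E⁻¹ ^ r) ^ 3 / ((E ^ (3 * r) - 1) * (E⁻¹ ^ r) ^ 3) := by
        rw [mul_div_mul_right]
        rw [inv_pow]; positivity
      rw [h2]
      congr 1
      · rw [inv_pow, mul_comm 2 r, pow_mul]; field_simp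
      · rw [inv_pow, mul_comm 3 r, pow_mul]; field_simp
    simp_rw [h1]
    have h3 : Tendsto (fun r : ℕ => C₁ * E⁻¹ ^ r / (1 - (E⁻¹ ^ r) ^ 3)) atTop
        (𝓝 (C₁ * 0 / (1 - 0 ^ 3))) :=
      (t0.const_mul C₁).div (tendsto_const_nhds.sub (t0.pow 3)) (by norm_num)
    simpa using h3
  have t2 : Tendsto (fun r : ℕ => C₂ / (1 - E₂ ^ (3 * r))) atTop (𝓝 C₂) := by
    have h4 : Tendsto (fun r : ℕ => E₂ ^ (3 * r)) atTop (𝓝 0) :=
      (tendsto_pow_atTop_nhds_zero_of_lt_one h20 h21).comp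
        (tendsto_id.const_mul_atTop' (by norm_num))
    have h5 : Tendsto (fun r : ℕ => C₂ / (1 - E₂ ^ (3 * r))) atTop (𝓝 (C₂ / (1 - 0))) :=
      tendsto_const_nhds.div (tendsto_const_nhds.sub h4) (by norm_num)
    simpa using h5
  have t3 := (t1.pow e₁).mul (t2.pow e₂)
  rw [zero_pow he₁.ne', zero_mul] at t3
  exact t3.eventually_lt_const one_pos

/-- Three points on a cycle of length `3r` lie in an arc of length `2r`. -/
lemma arcs (r : ℕ) (hr : 0 < r) (m k : ℤ) :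
    ∃ (j : ℤ) (m' k' l' : ℕ), m' ≤ 2 * r ∧ k' ≤ 2 * r ∧ l' ≤ 2 * r ∧
      (3 * r : ℤ) ∣ m + j - m' ∧ (3 * r : ℤ) ∣ k + j - k' ∧ (3 * r : ℤ) ∣ j - l' := by
  set n : ℤ := 3 * r with hn
  have hn0 : 0 < n := by omega
  obtain ⟨m₀, hm0, hm1, hm2⟩ : ∃ m₀ : ℤ, 0 ≤ m₀ ∧ m₀ < n ∧ n ∣ m - m₀ :=
    ⟨m % n, Int.emod_nonneg _ hn0.ne', Int.emod_lt_of_pos _ hn0, Int.dvd_self_sub_emod⟩
  obtain ⟨k₀, hk0, hk1, hk2⟩ : ∃ k₀ : ℤ, 0 ≤ k₀ ∧ k₀ < n ∧ n ∣ k - k₀ :=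
    ⟨k % n, Int.emod_nonneg _ hn0.ne', Int.emod_lt_of_pos _ hn0, Int.dvd_self_sub_emod⟩
  -- general construction: a shift `j` with three representatives
  have key : ∀ (j M K L : ℤ), 0 ≤ M → 0 ≤ K → 0 ≤ L → M ≤ 2 * r → K ≤ 2 * r → L ≤ 2 * r →
      n ∣ m₀ + j - M → n ∣ k₀ + j - K → n ∣ j - L →
      ∃ (j : ℤ) (m' k' l' : ℕ), m' ≤ 2 * r ∧ k' ≤ 2 * r ∧ l' ≤ 2 * r ∧
      n ∣ m + j - m' ∧ n ∣ k + j - k' ∧ n ∣ j - l' := by
    intro j M K L hM hK hL hM2 hK2 hL2 h1 h2 h3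
    refine ⟨j, M.toNat, K.toNat, L.toNat, by omega, by omega, by omega, ?_, ?_, ?_⟩
    · rw [Int.toNat_of_nonneg hM]
      have := dvd_add hm2 h1
      rwa [show m - m₀ + (m₀ + j - M) = m + j - M by ring] at this
    · rw [Int.toNat_of_nonneg hK]
      have := dvd_add hk2 h2
      rwa [show k - k₀ + (k₀ + j - K) = k + j - K by ring] at this
    · rw [Int.toNat_of_nonneg hL]
      exact h3
  have d0 : ∀ x : ℤ, x = 0 → n ∣ x := by rintro x rfl; exact dvd_zero _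
  have dn : ∀ x : ℤ, x = -n → n ∣ x := by rintro x rfl; exact (dvd_refl n).neg_right
  rcases le_total m₀ k₀ with hmk | hmk
  · -- order 0 ≤ m₀ ≤ k₀ < n
    by_cases c1 : k₀ ≤ 2 * r
    · exact key 0 m₀ k₀ 0 hm0 hk0 le_rfl (by omega) c1 (by omega) (d0 _ (by ring)) (d0 _ (by ring))
        (d0 _ (by ring))
    · by_cases c2 : (r : ℤ) ≤ m₀
      · exact key (-m₀) 0 (k₀ - m₀) (n - m₀) le_rfl (by omega) (by omega) (by omega) (by omega)
          (by omega) (d0 _ (by ring)) (d0 _ (by ring)) (dn _ (by ring))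
      · exact key (-k₀) (m₀ - k₀ + n) 0 (n - k₀) (by omega) le_rfl (by omega) (by omega) (by omega)
          (by omega) (dn _ (by ring)) (d0 _ (by ring)) (dn _ (by ring))
  · by_cases c1 : m₀ ≤ 2 * r
    · exact key 0 m₀ k₀ 0 hm0 hk0 le_rfl c1 (by omega) (by omega) (d0 _ (by ring)) (d0 _ (by ring))
        (d0 _ (by ring))
    · by_cases c2 : (r : ℤ) ≤ k₀
      · exact key (-k₀) (m₀ - k₀) 0 (n - k₀) (by omega) le_rfl (by omega) (by omega) (by omega)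
          (by omega) (d0 _ (by ring)) (d0 _ (by ring)) (dn _ (by ring))
      · exact key (-m₀) 0 (k₀ - m₀ + n) (n - m₀) le_rfl (by omega) (by omega) (by omega) (by omega)
          (by omega) (d0 _ (by ring)) (dn _ (by ring)) (dn _ (by ring))

lemma pow_sub_one_le (v : HeightOneSpectrum (𝓞 F)) {x : F} (hx : fabs v x = 1) (s : ℕ) :
    fabs v (x ^ s - 1) ≤ fabs v (x - 1) := by
  induction s with
  | zero => simp
  | succ s ih =>
    have : x ^ (s + 1) - 1 = x * (x ^ s - 1) + (x - 1) := by ring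
    rw [this]
    refine (fabs_add_le v _ _).trans (max_le ?_ le_rfl)
    rw [map_mul, hx, one_mul]; exact ih

lemma zpow_sub_zpow_le (v : HeightOneSpectrum (𝓞 F)) {ε : F} (hε0 : ε ≠ 0) (hε : fabs v ε = 1)
    (n : ℕ) {m m' : ℤ} (h : (n : ℤ) ∣ m - m') :
    fabs v (ε ^ m - ε ^ m') ≤ fabs v (ε ^ n - 1) := by
  obtain ⟨s, hs⟩ := h
  have hm : m = m' + n * s := by omega
  have h1 : ε ^ m - ε ^ m' = ε ^ m' * ((ε ^ n) ^ s - 1) := by
    rw [hm, zpow_add₀ hε0, zpow_mul, zpow_natCast]; ring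
  have h2 : fabs v (ε ^ n) = 1 := by rw [map_pow, hε, one_pow]
  rw [h1, map_mul, map_zpow₀, hε, one_zpow, one_mul]
  rcases Int.eq_nat_or_neg s with ⟨q, rfl | rfl⟩
  · rw [zpow_natCast]; exact pow_sub_one_le v h2 q
  · have h3 : (ε ^ n) ^ (-(q : ℤ)) - 1 = -((ε ^ n) ^ (-(q : ℤ)) * ((ε ^ n) ^ q - 1)) := by
      have : (ε ^ n) ^ (-(q : ℤ)) * (ε ^ n) ^ q = 1 := by
        rw [zpow_neg, zpow_natCast, inv_mul_cancel₀]; positivity
      rw [mul_sub, this]; ring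
    rw [h3, map_neg_eq_map, map_mul, map_zpow₀, h2, one_zpow, one_mul]
    exact pow_sub_one_le v h2 q

end Pool.Agent.Lib.MP_78b700_nt
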