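import Mathlib

/-!
# Places in and outside a finite set `S`, product formula and finiteness
-/

set_option autoImplicit false

open IsDedekindDomain NumberField NumberField.HeightOneSpectrum

namespace Pool.Agent.Lib.MP_78b700_nt

variable {F : Type*} [Field F] [NumberField F]

/-- The normalised absolute value at a finite place. -/
noncomputable abbrev fabs (v : HeightOneSpectrum (𝓞 F)) : AbsoluteValue F ℝ := adicAbv F v

lemma fabs_add_le (v : HeightOneSpectrum (𝓞 F)) (x y : F) :
    fabs v (x + y) ≤ max (fabs v x) (fabs v y) := adicAbv_add_le_max F v x y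

lemma fabs_sub_le (v : HeightOneSpectrum (𝓞 F)) (x y : F) :
    fabs v (x - y) ≤ max (fabs v x) (fabs v y) := by
  have := fabs_add_le v x (-y)
  rwa [← sub_eq_add_neg, map_neg_eq_map] at this

/-- The places in `S` together with the archimedean places. -/
abbrev TPlace (S : Finset (HeightOneSpectrum (𝓞 F))) : Type _ := S ⊕ InfinitePlace F

/-- The absolute value attached to a place in `S ∪ ∞`. -/
noncomputable def tabs (S : Finset (HeightOneSpectrum (𝓞 F))) : TPlace S → AbsoluteValue F ℝ
  | Sum.inl v => fabs v.1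
  | Sum.inr w => w.1

/-- The exponent of a place in `S ∪ ∞` in the product formula. -/
noncomputable def texp (S : Finset (HeightOneSpectrum (𝓞 F))) : TPlace S → ℕ
  | Sum.inl _ => 1
  | Sum.inr w => w.mult

lemma texp_pos (S : Finset (HeightOneSpectrum (𝓞 F))) (t : TPlace S) : 0 < texp S t := by
  rcases t with v | w
  · exact one_pos
  · exact w.mult_pos

lemma finite_fabs_ne_one {x : F} (hx : x ≠ 0) :
    {v : HeightOneSpectrum (𝓞 F) | fabs v x ≠ 1}.Finite := by
  have h := FinitePlace.hasFiniteMulSupport (K := F) hx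
  have h2 : (Function.mulSupport fun w : FinitePlace F => w x).Finite := h
  have : {v : HeightOneSpectrum (𝓞 F) | fabs v x ≠ 1} ⊆
      (fun v => FinitePlace.equivHeightOneSpectrum.symm v) ⁻¹'
        (Function.mulSupport fun w : FinitePlace F => w x) := by
    intro v hv
    simp only [Set.mem_preimage, Function.mem_mulSupport]
    rw [FinitePlace.equivHeightOneSpectrum_symm_apply, FinitePlace.norm_embedding]
    exact hv
  exact (h2.preimage (Equiv.injective _).injOn).subset this

lemma finprod_fabs {x : F} :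
    ∏ᶠ w : FinitePlace F, w x = ∏ᶠ v : HeightOneSpectrum (𝓞 F), fabs v x := by
  rw [← finprod_comp_equiv FinitePlace.equivHeightOneSpectrum.symm]
  refine finprod_congr fun v => ?_
  rw [FinitePlace.equivHeightOneSpectrum_symm_apply, FinitePlace.norm_embedding]

/-- The product over `S ∪ ∞`. -/
noncomputable def tprod (S : Finset (HeightOneSpectrum (𝓞 F))) (x : F) : ℝ :=
  ∏ t : TPlace S, tabs S t x ^ texp S t

lemma tprod_eq (S : Finset (HeightOneSpectrum (𝓞 F))) (x : F) :
    tprod S x = (∏ v ∈ S, fabs v x) * ∏ w : InfinitePlace F, w x ^ w.mult := by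
  unfold tprod
  rw [Fintype.prod_sum_type]
  congr 1
  simp only [tabs, texp, pow_one]
  exact Finset.prod_coe_sort S (fun v => fabs v x)

/-- Product formula split along `S`. -/
lemma product_formula (S : Finset (HeightOneSpectrum (𝓞 F))) {x : F} (hx : x ≠ 0) :
    ∃ Z : Finset (HeightOneSpectrum (𝓞 F)), (∀ v ∈ Z, v ∉ S) ∧
      tprod S x * ∏ v ∈ Z, fabs v x = 1 := by
  classical
  have hfin := finite_fabs_ne_one hx
  refine ⟨hfin.toFinset \ S, fun v hv => (Finset.mem_sdiff.1 hv).2, ?_⟩
  have h1 := prod_abs_eq_one hx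
  rw [finprod_fabs, finprod_eq_prod_of_mulSupport_subset (s := hfin.toFinset ∪ S)] at h1
  · refine Eq.trans ?_ h1
    rw [tprod_eq]
    have : hfin.toFinset ∪ S = S ∪ (hfin.toFinset \ S) := by
      ext v; simp only [Finset.mem_union, Finset.mem_sdiff]; tauto
    rw [this, Finset.prod_union (Finset.disjoint_sdiff)]
    ring
  · intro v hv
    simp only [Finset.coe_union, Set.Finite.coe_toFinset, Set.mem_union]
    exact Or.inl hv

lemma one_le_tprod (S : Finset (HeightOneSpectrum (𝓞 F))) {x : F} (hx : x ≠ 0)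
    (h : ∀ v ∉ S, fabs v x ≤ 1) : 1 ≤ tprod S x := by
  obtain ⟨Z, hZ, hp⟩ := product_formula S hx
  have h1 : ∏ v ∈ Z, fabs v x ≤ 1 :=
    Finset.prod_le_one (fun v _ => (fabs v).nonneg x) fun v hv => h v (hZ v hv)
  have h0 : 0 < ∏ v ∈ Z, fabs v x := Finset.prod_pos fun v _ => (fabs v).pos hx
  have ht : 0 < tprod S x := Finset.prod_pos fun t _ => pow_pos ((tabs S t).pos hx) _
  nlinarith

lemma tprod_eq_one (S : Finset (HeightOneSpectrum (𝓞 F))) {x : F} (hx : x ≠ 0)
    (h : ∀ v ∉ S, fabs v x = 1) : tprod S x = 1 := by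
  obtain ⟨Z, hZ, hp⟩ := product_formula S hx
  rw [Finset.prod_eq_one fun v hv => h v (hZ v hv), mul_one] at hp
  exact hp

lemma tprod_mul (S : Finset (HeightOneSpectrum (𝓞 F))) (x y : F) :
    tprod S (x * y) = tprod S x * tprod S y := by
  unfold tprod
  rw [← Finset.prod_mul_distrib]
  exact Finset.prod_congr rfl fun t _ => by rw [map_mul, mul_pow]

/-- Finiteness of the elements with bounded absolute values. -/
lemma finite_bounded (S : Finset (HeightOneSpectrum (𝓞 F))) (B : ℝ) :
    {x : F | (∀ v ∉ S, fabs v x ≤ 1) ∧ ∀ t : TPlace S, tabs S t x ≤ B}.Finite := by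
  classical
  set C : ℝ := max 1 B with hC
  have hC1 : 1 ≤ C := le_max_left _ _
  refine (finite_setOfPred_mulHeight₁_le
    (K := F) ((∏ w : InfinitePlace F, C ^ w.mult) * ∏ v ∈ S, C)).subset ?_
  rintro x ⟨h1, h2⟩
  rw [Set.mem_ofPred_eq, NumberField.mulHeight₁_eq]
  refine mul_le_mul ?_ ?_ ?_ ?_
  · refine Finset.prod_le_prod (fun w _ => by positivity) fun w _ => ?_
    refine pow_le_pow_left₀ (by positivity) ?_ _
    refine max_le ?_ hC1
    exact (h2 (Sum.inr w)).trans (le_max_right _ _)
  · have h3 : ∏ᶠ w : FinitePlace F, max (w x) 1 =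
        ∏ᶠ v : HeightOneSpectrum (𝓞 F), max (fabs v x) 1 := by
      rw [← finprod_comp_equiv FinitePlace.equivHeightOneSpectrum.symm]
      refine finprod_congr fun v => ?_
      rw [FinitePlace.equivHeightOneSpectrum_symm_apply, FinitePlace.norm_embedding]
    rw [h3, finprod_eq_prod_of_mulSupport_subset (s := S)]
    · refine Finset.prod_le_prod (fun v _ => by positivity) fun v hv => ?_
      refine max_le ?_ hC1
      exact (h2 (Sum.inl ⟨v, hv⟩)).trans (le_max_right _ _)
    · intro v hv
      by_contra hvS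
      apply hv
      exact max_eq_right (h1 v hvS)
  · exact finprod_nonneg fun w => by positivity
  · exact Finset.prod_nonneg fun w _ => by positivity

end Pool.Agent.Lib.MP_78b700_nt
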